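import Pool.Agent.Helper79.HF.Top
import Pool.Agent.Helper79.HG.Seed
import Pool.Agent.Helper79.HG.Glue

/-!
# Ends without triangles and quadrangles
-/

namespace Pool.Agent.Helper79.HF

open Finset Pool.Agent.Helper79.HX Pool.Agent.Helper79.HG

/-- the end piece: seven pentagons and twelve hexagons -/
def endE : Multiset ℕ := Multiset.replicate 7 5 + Multiset.replicate 12 6

theorem end_fin (z : ℕ) (M : Multiset ℕ) (hz : Conf z 3 4 M) : Fin' (M + {z + 2} + endE) := by
  refine (glue hz (seeds 0)).congr ?_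
  intro j
  have e1 : z + 4 - 2 = z + 2 := by omega
  rw [e1, endE]
  simp only [Multiset.insert_eq_cons, Multiset.count_add, Multiset.count_cons,
    Multiset.count_singleton, Multiset.replicate_succ, Multiset.replicate_zero,
    Multiset.count_zero, Nat.reduceAdd, Nat.reduceSub, Nat.add_zero]
  omega

instance endM : EndM := ⟨endE, end_fin⟩

/-- the start -/
theorem start (k : ℕ) :
    Conf 6 3 4 (Multiset.replicate 7 5 + Multiset.replicate (12 + k) 6) := by
  refine ((seeds k).move1.swap.move1).congr ?_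
  intro j
  have e1 : Multiset.replicate (12 + k) 6 = 6 ::ₘ 6 ::ₘ Multiset.replicate (10 + k) 6 := by
    rw [show 12 + k = 10 + k + 1 + 1 by omega, Multiset.replicate_succ, Multiset.replicate_succ]
  rw [e1]
  simp only [Multiset.count_add, Multiset.count_cons, Nat.reduceAdd]
  omega

/-- All the faces: `K + 4` and `c + 4`, `c ∈ C`; exactly `n` hexagons. -/
theorem all {K : ℕ} {C : Multiset ℕ} {e a b n : ℕ} (hK : 3 ≤ K)
    (hC : ∀ c ∈ C, 3 ≤ c ∧ c ≤ K)
    (h1 : 5 * e + 3 * a + 2 * b + 2 * Multiset.card C + 14 ≤ K + C.sum)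
    (h2 : a + 20 * Multiset.card C + 274 ≤ n)
    (h3 : 2 * e + 2 * a + b + 6 * Multiset.card C + 39 ≤ n + C.sum) :
    ∃ p, Fin' ({K + 4} + C.map (fun c => c + 4) + Multiset.replicate (a + e) 3 +
      Multiset.replicate b 4 + Multiset.replicate (p + 14) 5 + Multiset.replicate n 6) := by
  obtain ⟨n', hn', h⟩ := all_faces (K := K) (C := C) (e := e) (a := a) (b := b) (N := n - 24)
    hK hC h1 (by omega) (by omega)
  obtain ⟨p, hp⟩ := h _ (start (n - 24 - n'))
  refine ⟨p, hp.congr ?_⟩
  intro j
  have e1 : n = 24 + (n - 24 - n') + n' := by omega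
  conv_rhs => rw [e1]
  have e2 : EndM.E = endE := rfl
  simp only [sml, e2, endE, Multiset.count_add, Multiset.count_replicate, Multiset.count_singleton]
  split_ifs <;> omega

end Pool.Agent.Helper79.HF
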