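import Pool.Agent.Helper79.HF.Star

/-!
# Few pentagons: the junction
-/

namespace Pool.Agent.Helper79.HF

open Finset Pool.Agent.Helper79.HX

variable [EndM]

theorem jun4 : ∀ (n r t s : ℕ) (C : Multiset ℕ) (a b N : ℕ), r ≤ n → r % 2 = 1 → 2 ≤ s →
    (∀ c ∈ C, 3 ≤ c) → 1 ≤ b → b ≤ 3 →
    r + s + C.sum + Multiset.card C + 5 ≤ 2 * a + b →
    2 * a + b ≤ r + s + C.sum + Multiset.card C + 9 →
    3 * a + 2 * b + 2 * Multiset.card C + 6 ≤ r + t + s + C.sum →
    a + 4 * Multiset.card C + 20 ≤ N → V 4 r t s C a b N := by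
  intro n
  induction n using Nat.strong_induction_on with
  | _ n ih =>
  intro r t s C a b N hn hr hs hC hb1 hb3 h1 h2 h3 h4
  rcases (by omega : r = 1 ∨ 3 ≤ r) with hr1 | hr3
  · subst hr1
    exact ((star3 _).2 (t - 1) (s - 1) C a (b - 1) N le_rfl (by omega) hC (by omega) (by omega)
      (by omega) (by omega)).vend4.to rfl rfl (by omega) (by omega) rfl rfl (by omega) le_rfl
  · exact (ih (n - 1) (by omega) (r - 2) (t - 1) s C (a - 1) b (N - 1) (by omega) (by omega) hs hC
      hb1 hb3 (by omega) (by omega) (by omega) (by omega)).string.to rfl (by omega) (by omega) rfl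
      rfl (by omega) rfl (by omega)

theorem jun3 : ∀ (n r t s : ℕ) (C : Multiset ℕ) (a b N : ℕ), r ≤ n → 1 ≤ r → 2 ≤ s →
    (∀ c ∈ C, 3 ≤ c) → (a = 0 → 3 ≤ r) → 3 ≤ b + r % 2 →
    r + s + C.sum + Multiset.card C + 5 ≤ 2 * a + b →
    2 * a + b ≤ r + s + C.sum + Multiset.card C + 9 →
    3 * a + 2 * b + 2 * Multiset.card C + 6 ≤ r + t + s + C.sum →
    a + 4 * Multiset.card C + 20 ≤ N → V 3 r t s C a b N := by
  intro n
  induction n using Nat.strong_induction_on with
  | _ n ih =>
  intro r t s C a b N hn hr hs hC ha0 hb h1 h2 h3 h4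
  rcases Nat.eq_zero_or_pos a with ha | ha
  · subst ha
    have := ha0 rfl
    rcases (by omega : r = 3 ∨ 4 ≤ r) with hr3 | hr4
    · subst hr3
      exact ((star3 _).2 (t - 3) (s - 1) C 0 (b - 3) N le_rfl (by omega) hC (by omega) (by omega)
        (by omega) (by omega)).vcap.to rfl rfl (by omega) (by omega) rfl rfl (by omega) le_rfl
    · exact (ih (n - 1) (by omega) (r - 1) (t - 1) s C 0 (b - 1) N (by omega) (by omega) hs hC
        (by omega) (by omega) (by omega) (by omega) (by omega) (by omega)).quad.to rfl (by omega)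
        (by omega) rfl rfl rfl (by omega) le_rfl
  rcases (by omega : r = 1 ∨ 2 ≤ r) with hr1 | hr2
  · subst hr1
    exact ((star3 _).2 (t - 1) (s - 1) C (a - 1) b N le_rfl (by omega) hC (by omega) (by omega)
      (by omega) (by omega)).vend3.to rfl rfl (by omega) (by omega) rfl (by omega) rfl le_rfl
  by_cases hbig : 4 ≤ b ∨ r % 2 = 0
  · exact (ih (n - 1) (by omega) (r - 1) (t - 1) s C a (b - 1) N (by omega) (by omega) hs hC
      (by omega) (by omega) (by omega) (by omega) (by omega) (by omega)).quad.to rfl (by omega)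
      (by omega) rfl rfl rfl (by omega) le_rfl
  · exact (jun4 (r - 2) (r - 2) (t - 1) s C (a - 1) b N le_rfl (by omega) hs hC (by omega)
      (by omega) (by omega) (by omega) (by omega) (by omega)).switch.to rfl (by omega) (by omega)
      rfl rfl (by omega) rfl le_rfl

end Pool.Agent.Helper79.HF
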