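import Pool.Agent.Helper79.HF.Jun

/-!
# Few pentagons: the balanced case
-/

namespace Pool.Agent.Helper79.HF

open Finset Pool.Agent.Helper79.HX

variable [EndM]

section
variable {m H r s t a b N : ℕ} {C : Multiset ℕ}

theorem W.strings (h : W 4 r s C a b N) (j : ℕ) :
    W 4 (r + 2 * j) (s + j) C (a + j) b (N + j) := by
  induction j with
  | zero => exact h
  | succ j ih =>
    exact ih.string.to rfl (by omega) (by omega) rfl (by omega) rfl (by omega)

theorem W.quads (h : W 3 r s C a b N) (j : ℕ) : W 3 (r + j) (s + j) C a (b + j) N := by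
  induction j with
  | zero => exact h
  | succ j ih => exact ih.quad

/-- complete the first face with strings -/
theorem kill4 (hr : 1 ≤ r) (ha : r / 2 ≤ a) (hs : r / 2 + 3 ≤ s + r % 2) (hN : r / 2 + 1 ≤ N)
    (h : WN (s + r % 2 - 3 - r / 2) C (a - r / 2) b (N - 1 - r / 2)) : W 4 r s C a b N := by
  rcases (by omega : r % 2 = 1 ∨ r % 2 = 0) with h1 | h1
  · exact (h.fin4.symm.strings (r / 2)).to rfl (by omega) (by omega) rfl (by omega) rfl
      (by omega)
  · exact (h.fin4.string.symm.strings (r / 2 - 1)).to rfl (by omega) (by omega) rfl (by omega) rfl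
      (by omega)

end

theorem sum_ge3 {C : Multiset ℕ} (h : ∀ c ∈ C, 3 ≤ c) : 3 * Multiset.card C ≤ C.sum := by
  have := Multiset.card_nsmul_le_sum (s := C) (a := 3) h
  rw [smul_eq_mul, mul_comm] at this
  exact this

/-- the statement for `k` further faces -/
def Ph (k : ℕ) : Prop := ∀ (R K : ℕ) (C : Multiset ℕ) (a b N : ℕ), Multiset.card C = k →
  1 ≤ R → R ≤ K → (∀ c ∈ C, 3 ≤ c ∧ c ≤ K) → 3 * a + 2 * b + 2 * k + 13 ≤ R + K + C.sum →
  (40 ≤ b → 3 * a + 2 * b + 2 * k + 14 ≤ R + K + C.sum) → a + 10 * k + 200 ≤ N →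
  2 * a + b + 2 * k + 5 ≤ N + R + C.sum → WN R (K ::ₘ C) a b N

theorem phB {k : ℕ} (ih : Ph k) : ∀ (n r s K : ℕ) (C : Multiset ℕ) (a b N : ℕ), r ≤ n →
    Multiset.card C = k → 1 ≤ r → r < s → s ≤ K → r + 40 ≤ K + b → (∀ c ∈ C, 3 ≤ c ∧ c ≤ K) →
    3 ≤ b → 3 * a + 2 * b + 2 * k + 16 = r + s + K + C.sum → a + 10 * k + 200 ≤ N →
    2 * a + b ≤ r + s + C.sum + k + 3 → W 3 r s (K ::ₘ C) a b N := by
  intro n
  induction n using Nat.strong_induction_on with
  | _ n ihn =>
  intro r s K C a b N hn hk hr hrs hsK hrK hC hb h1 h2 h3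
  have hS := sum_ge3 (fun c hc => (hC c hc).1)
  rcases (by omega : r ≤ 4 ∨ 5 ≤ r) with hr4 | hr5
  · exact ((ih (s - r) K C a (b - (r - 1)) N hk (by omega) (by omega) hC (by omega) (by omega)
      (by omega) (by omega)).fin3.symm.quads (r - 1)).to rfl (by omega) (by omega) rfl rfl
      (by omega) le_rfl
  by_cases hF : r + s + C.sum + k + 2 ≤ 2 * a + b
  · exact (jun3 _ (r - 2) K (s - 1) C a b N le_rfl (by omega) (by omega)
      (fun c hc => (hC c hc).1) (by omega) (by omega) (by omega) (by omega) (by omega)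
      (by omega)).open.to rfl (by omega) (by omega) rfl rfl rfl le_rfl
  rcases (by omega : 4 ≤ b ∨ b = 3) with hb4 | hb3
  · exact (ihn (n - 1) (by omega) (r - 1) (s - 1) K C a (b - 1) N (by omega) hk (by omega)
      (by omega) (by omega) (by omega) hC (by omega) (by omega) (by omega) (by omega)).quad.to rfl
      (by omega) (by omega) rfl rfl (by omega) le_rfl
  · subst hb3
    have ha : r + 6 ≤ a := by omega
    have h5 := ih (s + r % 2 - 3 - r / 2) K C (a - r / 2) 3 (N - r / 2) hk (by omega) (by omega)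
      hC (by omega) (by omega) (by omega) (by omega)
    exact (kill4 (r := r - 2) (s := s - 1) (a := a - 1) (b := 3) (N := N) (by omega) (by omega)
      (by omega) (by omega) (h5.to (by omega) rfl (by omega) rfl (by omega))).switch.to rfl
      (by omega) (by omega) rfl (by omega) rfl le_rfl

theorem phase : ∀ k, Ph k := by
  intro k
  induction k with
  | zero =>
    intro R K C a b N hk hR hRK hC h1 h2 h3 h4
    rw [Multiset.card_eq_zero] at hk
    subst hk
    rw [Multiset.sum_zero] at h1 h2 h4
    by_cases hT : 3 * a + b + 2 ≤ N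
    · exact tape _ R (K ::ₘ 0) a b N le_rfl hR (by
        intro c hc
        simp only [Multiset.mem_cons, Multiset.notMem_zero, or_false] at hc
        omega) (by
        rw [Multiset.sum_cons, Multiset.sum_zero, Multiset.card_cons, Multiset.card_zero]
        omega) (by rw [Multiset.card_cons, Multiset.card_zero]; omega)
    have hst : ∀ R', 1 ≤ R' → R' + 1 ≤ 2 * a + b → 3 * a + 2 * b + 5 ≤ K + R' →
        2 * a + b + 5 ≤ N + R' → WN R' (K ::ₘ 0) a b N := by
      intro R' g1 g2 g3 g4
      exact ((star3 _).2 K R' 0 a b N le_rfl g1 (by simp) (by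
        rw [Multiset.sum_zero, Multiset.card_zero]; omega) (by
        rw [Multiset.sum_zero, Multiset.card_zero]; omega) (by
        rw [Multiset.card_zero]; omega) (by
        rw [Multiset.sum_zero, Multiset.card_zero]; omega)).symm.fresh3
    by_cases hF : R + 1 ≤ 2 * a + b
    · exact hst R hR hF (by omega) (by omega)
    · exact ((hst (2 * a + b - 1) (by omega) (by omega) (by omega) (by omega)).grow
        (R + 1 - (2 * a + b))).to (by omega) rfl rfl rfl le_rfl
  | succ k ih =>
    intro R
    induction R using Nat.strong_induction_on with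
    | _ R ihR =>
    intro K C a b N hk hR hRK hC h1 h2 h3 h4
    have hS := sum_ge3 (fun c hc => (hC c hc).1)
    by_cases hT : 3 * a + b + 2 * (k + 2) ≤ N
    · exact tape _ R (K ::ₘ C) a b N le_rfl hR (by
        intro c hc
        rcases Multiset.mem_cons.1 hc with h | h
        · have : 1 ≤ Multiset.card C := by omega
          obtain ⟨c', hc'⟩ := Multiset.card_pos_iff_exists_mem.1 this
          have := hC c' hc'
          omega
        · exact (hC c h).1) (by
        rw [Multiset.sum_cons, Multiset.card_cons]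
        omega) (by rw [Multiset.card_cons]; omega)
    by_cases hF : R + 1 + C.sum + (k + 1) ≤ 2 * a + b
    · exact ((star3 _).2 K R C a b N le_rfl hR (fun c hc => (hC c hc).1) (by omega) (by omega)
        (by omega) (by omega)).symm.fresh3
    have key : ∀ c ∈ C, ∃ C', C = c ::ₘ C' ∧ Multiset.card C' = k ∧ C.sum = c + C'.sum ∧
        (∀ c' ∈ C', 3 ≤ c' ∧ c' ≤ K) ∧ 3 ≤ c ∧ c ≤ K := by
      intro c hc
      obtain ⟨C', rfl⟩ := Multiset.exists_cons_of_mem hc
      rw [Multiset.card_cons] at hk
      exact ⟨C', rfl, by omega, Multiset.sum_cons _ _,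
        fun c' h => hC c' (Multiset.mem_cons_of_mem h), hC c (by simp)⟩
    obtain ⟨c0, hc0⟩ : ∃ c, c ∈ C := Multiset.card_pos_iff_exists_mem.1 (by omega)
    rcases (by omega : R = 1 ∨ 2 ≤ R) with hR1 | hR2
    · subst hR1
      obtain ⟨C', rfl, g1, g2, g3, g4, g5⟩ := key c0 hc0
      have h5 := ih (c0 - 1) K C' a b N g1 (by omega) (by omega) g3 (by omega) (by omega)
        (by omega) (by omega)
      exact h5.s0.to rfl (by
        rw [Multiset.cons_swap]; congr 2; omega) rfl rfl le_rfl
    by_cases hP : 3 * a + 2 * b + 2 * (k + 1) + 15 ≤ R + K + C.sum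
    · exact (ihR (R - 1) (by omega) K C a b N hk (by omega) (by omega) hC (by omega) (by omega)
        (by omega) (by omega)).P.to (by omega) rfl rfl rfl le_rfl
    rcases (by omega : 40 ≤ b ∨ b < 40) with hb | hb
    · obtain ⟨C', rfl, g1, g2, g3, g4, g5⟩ := key c0 hc0
      have e := h2 hb
      rw [Multiset.cons_swap]
      rcases Nat.lt_trichotomy R c0 with hlt | heq | hgt
      · exact (phB ih R R c0 K C' a b N le_rfl g1 hR hlt g5 (by omega) g3 (by omega) (by omega)
          (by omega) (by omega)).fresh3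
      · subst heq
        exact (phB ih (R - 2) (R - 2) R K C' a (b - 1) (N - 1) le_rfl g1 (by omega) (by omega) g5
          (by omega) g3 (by omega) (by omega) (by omega) (by omega)).fresh3.Q.to (by omega) rfl rfl
          (by omega) (by omega)
      · exact (phB ih c0 c0 R K C' a b N le_rfl g1 (by omega) hgt hRK (by omega) g3 (by omega)
          (by omega) (by omega) (by omega)).symm.fresh3
    · obtain ⟨c, hc, hbig⟩ : ∃ c ∈ C, 8 ≤ R ∨ 8 ≤ c + 1 := by
        by_contra hcon
        push Not at hcon
        have h7 : ∀ c ∈ C, c ≤ 7 := fun c hc => by have := (hcon c hc).2; omega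
        have := Multiset.sum_le_card_nsmul C 7 h7
        rw [smul_eq_mul, hk] at this
        have := (hcon c0 hc0).1
        omega
      obtain ⟨C', rfl, g1, g2, g3, g4, g5⟩ := key c hc
      have hS' := sum_ge3 (fun c hc => (g3 c hc).1)
      rw [Multiset.cons_swap]
      rcases (by omega : R ≤ c + 1 ∨ c + 1 < R) with hlt | hgt
      · have ha : R ≤ a + 32 ∧ R / 2 ≤ a := by omega
        have h5 := ih (c + 1 + R % 2 - 3 - R / 2) K C' (a - R / 2) b (N - 1 - R / 2) g1 (by omega)
          (by omega) g3 (by omega) (by omega) (by omega) (by omega)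
        exact (kill4 (by omega) (by omega) (by omega) (by omega) h5).fresh4
      · have ha : c + 1 ≤ a + 32 ∧ (c + 1) / 2 ≤ a := by omega
        have h5 := ih (R + (c + 1) % 2 - 3 - (c + 1) / 2) K C' (a - (c + 1) / 2) b
          (N - 1 - (c + 1) / 2) g1 (by omega) (by omega) g3 (by omega) (by omega) (by omega)
          (by omega)
        exact (kill4 (by omega) (by omega) (by omega) (by omega) h5).symm.fresh4

end Pool.Agent.Helper79.HF
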