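import Pool.Agent.Helper79.HF.Phase

/-!
# Triangles with two pentagons: a dominant face

Of the `a + e` triangles, `e` may be used with two pentagons (instead of one hexagon).
-/

namespace Pool.Agent.Helper79.HF

open Finset Pool.Agent.Helper79.HX

variable [EndM]

section
variable {m H r s t a b n : ℕ} {C : Multiset ℕ}

theorem w_back (h : w 3 r s C a b n) : w 4 (r + 1) (s + 1) C a b n := by
  intro z x M hz
  obtain ⟨p, hp⟩ := h _ _ _ hz.move1
  have e1 : z + 1 + r = z + (r + 1) := by ring
  have e2 : x + 1 + s = x + (s + 1) := by ring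
  rw [e1, e2] at hp
  refine ⟨p + 1, hp.congr ?_⟩
  intro k
  simp only [sml, Multiset.count_add, Multiset.count_cons, Multiset.count_singleton,
    Multiset.replicate_succ, Nat.reduceAdd]
  omega

theorem v_back (h : v 3 r t s C a b n) : v 4 (r + 1) (t + 1) s C a b n := by
  intro z y x M hz
  obtain ⟨p, hp⟩ := h _ _ _ _ hz.move
  have e1 : z + 1 + r = z + (r + 1) := by ring
  have e2 : y + 1 + t = y + (t + 1) := by ring
  rw [e1, e2] at hp
  refine ⟨p + 1, hp.congr ?_⟩
  intro k
  simp only [sml, Multiset.count_add, Multiset.count_cons, Multiset.count_singleton,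
    Multiset.replicate_succ, Nat.reduceAdd]
  omega

theorem v_symm (h : v m r t s C a b n) : v m t r s C a b n := by
  intro z y x M hz
  obtain ⟨p, hp⟩ := h _ _ _ _ hz.symm
  refine ⟨p, hp.congr ?_⟩
  intro k
  simp only [Multiset.count_add, Multiset.count_singleton]
  omega

end

section
variable {m H r s t a b N : ℕ} {C : Multiset ℕ}

theorem back (h : W 3 r s C a b N) : W 4 (r + 1) (s + 1) C a b N :=
  let ⟨n, hn, h⟩ := h; ⟨n, hn, w_back h⟩

/-- a triangle with two pentagons -/
theorem five (h : W 3 r s C a b N) : W 3 (r + 3) (s + 2) C (a + 1) b N := (back h).switch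

theorem vback (h : V 3 r t s C a b N) : V 4 (r + 1) (t + 1) s C a b N :=
  let ⟨n, hn, h⟩ := h; ⟨n, hn, v_back h⟩

theorem vsymm (h : V m r t s C a b N) : V m t r s C a b N :=
  let ⟨n, hn, h⟩ := h; ⟨n, hn, v_symm h⟩

theorem vfive (h : V 3 r t s C a b N) : V 3 (r + 3) (t + 2) s C (a + 1) b N := (vback h).switch

end

theorem star5 : ∀ n : ℕ,
    (∀ (H : ℕ) (C : Multiset ℕ) (e a b N : ℕ), H + C.sum + 1 ≤ n → (∀ c ∈ C, 3 ≤ c) →
      C.sum + 3 * Multiset.card C ≤ 3 * e + 2 * a + b →
      5 * e + 3 * a + 2 * b + 2 * Multiset.card C + 4 ≤ H + C.sum →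
      a + 10 * Multiset.card C + 10 ≤ N →
      2 * e + 2 * a + b + 6 * Multiset.card C + 8 ≤ N + C.sum → WN H C (a + e) b N) ∧
    (∀ (H s : ℕ) (C : Multiset ℕ) (e a b N : ℕ), H + s + C.sum ≤ n → 1 ≤ s →
      (∀ c ∈ C, 3 ≤ c) →
      s + 3 + C.sum + 3 * Multiset.card C ≤ 3 * e + 2 * a + b →
      5 * e + 3 * a + 2 * b + 2 * Multiset.card C + 6 ≤ H + s + C.sum →
      a + 10 * Multiset.card C + 20 ≤ N →
      2 * e + 2 * a + b + 6 * Multiset.card C + 12 ≤ N + s + C.sum →
      W 3 H s C (a + e) b N) := by
  intro n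
  induction n using Nat.strong_induction_on with
  | _ n ih =>
  constructor
  · intro H C e a b N hn hC h1 h2 h3 h4
    rcases Nat.eq_zero_or_pos e with rfl | he
    · exact (star3 _).1 H C a b N le_rfl hC (by omega) (by omega) (by omega) (by omega)
    rcases Multiset.empty_or_exists_mem C with rfl | ⟨c, hc⟩
    · simp only [Multiset.sum_zero, Multiset.card_zero] at h1 h2 h3 h4
      exact hub_only (a + e + b) H (a + e) b N (by omega) (by omega) (by omega)
    · obtain ⟨C', rfl⟩ := Multiset.exists_cons_of_mem hc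
      have hc3 := hC c (by simp)
      simp only [Multiset.sum_cons, Multiset.card_cons] at hn h1 h2 h3 h4
      exact ((ih (n - 1) (by omega)).2 H c C' e a b N (by omega) (by omega)
        (fun c' h => hC c' (Multiset.mem_cons_of_mem h)) (by omega) (by omega) (by omega)
        (by omega)).fresh3
  · intro H s C e a b N hn hs hC h1 h2 h3 h4
    rcases Nat.eq_zero_or_pos e with rfl | he
    · exact (star3 _).2 H s C a b N le_rfl hs hC (by omega) (by omega) (by omega) (by omega)
    rcases (by omega : s = 1 ∨ s = 2 ∨ s = 3 ∨ s = 4 ∨ 5 ≤ s) with hs1 | hs1 | hs1 | hs1 | hs1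
    · subst hs1
      exact ((ih (n - 1) (by omega)).1 (H - 1) C e a b N (by omega) hC (by omega) (by omega)
        (by omega) (by omega)).fin3.to rfl (by omega) rfl rfl rfl rfl le_rfl
    · subst hs1
      rcases Nat.eq_zero_or_pos b with rfl | hb
      · exact (((ih (n - 1) (by omega)).1 (H - 4) C (e - 1) a 0 (N - 1) (by omega) hC (by omega)
          (by omega) (by omega) (by omega)).fin4.switch).to rfl (by omega) rfl rfl (by omega) rfl
          (by omega)
      · exact ((ih (n - 1) (by omega)).1 (H - 2) C e a (b - 1) N (by omega) hC (by omega)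
          (by omega) (by omega) (by omega)).fin3.quad.to rfl (by omega) rfl rfl rfl (by omega)
          le_rfl
    · subst hs1
      exact (five ((ih (n - 1) (by omega)).1 (H - 4) C (e - 1) a b N (by omega) hC (by omega)
          (by omega) (by omega) (by omega)).fin3).to rfl (by omega) rfl rfl (by omega) rfl le_rfl
    · subst hs1
      exact (five ((ih (n - 1) (by omega)).1 (H - 3) C (e - 1) a b N (by omega) hC (by omega)
          (by omega) (by omega) (by omega)).fin3.symm).symm.to rfl (by omega) rfl rfl (by omega)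
          rfl le_rfl
    · rcases Nat.lt_or_ge (3 * e + 2 * a + b) (s + 4 + C.sum + 3 * Multiset.card C) with h5 | h5
      · exact (five ((ih (n - 1) (by omega)).2 (H - 2) (s - 3) C (e - 1) a b N (by omega)
          (by omega) hC (by omega) (by omega) (by omega) (by omega)).symm).symm.to rfl (by omega)
          (by omega) rfl (by omega) rfl le_rfl
      · exact (five ((ih (n - 1) (by omega)).2 (H - 3) (s - 2) C (e - 1) a b N (by omega)
          (by omega) hC (by omega) (by omega) (by omega) (by omega))).to rfl (by omega)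
          (by omega) rfl (by omega) rfl le_rfl

end Pool.Agent.Helper79.HF
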