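import Pool.Agent.Helper79.HF.Units

/-!
# Few pentagons: the crude construction

`tape`: every admissible choice of faces is possible with at most `3 a + b + 2 card C` hexagons.
-/

namespace Pool.Agent.Helper79.HF

open Finset Pool.Agent.Helper79.HX

variable [EndM]

section
variable {m H r s t a b N : ℕ} {C : Multiset ℕ}

/-- complete the hub at once -/
theorem WN.s0 (h : WN H C a b N) : WN 1 ((H + 1) ::ₘ C) a b N := h.fin3.symm.fresh3

/-- a quadrangle between the hub and the next hub -/
theorem WN.s1 (h : WN H C a b N) : WN 2 ((H + 2) ::ₘ C) a (b + 1) N := h.fin3.symm.quad.fresh3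

/-- a triangle between the hub and the next hub -/
theorem WN.s2 (h : WN H C a b N) : WN 3 ((H + 2) ::ₘ C) (a + 1) b (N + 2) :=
  h.fin4.symm.string.fresh4

/-- a triangle between the hub and the next hub -/
theorem WN.s3 (h : WN H C a b N) : WN 2 ((H + 3) ::ₘ C) (a + 1) b (N + 2) :=
  h.fin4.string.symm.fresh4

theorem WN.grow (h : WN H C a b N) (j : ℕ) : WN (H + j) C a b N := by
  induction j with
  | zero => exact h
  | succ j ih => exact ih.P

theorem WN_zero (C : Multiset ℕ) : ∀ H N, (∀ c ∈ C, 3 ≤ c) → 1 ≤ H → (C = 0 → 2 ≤ H) →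
    WN H C 0 0 N := by
  induction C using Multiset.induction_on with
  | empty =>
    intro H N _ _ h
    have := h rfl
    exact (WN_nil.grow (H - 2)).to (by omega) rfl rfl rfl le_rfl
  | cons c C ih =>
    intro H N hc hH _
    have h3 := hc c (by simp)
    have h1 := ih (c - 1) N (fun c' h => hc c' (Multiset.mem_cons_of_mem h)) (by omega)
      (fun _ => by omega)
    exact (h1.s0.grow (H - 1)).to (by omega) (by congr 1; omega) rfl rfl le_rfl

end

theorem tape : ∀ (n R : ℕ) (C : Multiset ℕ) (a b N : ℕ), R + C.sum ≤ n → 1 ≤ R →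
    (∀ c ∈ C, 3 ≤ c) → 3 * a + 2 * b + 5 + 2 * Multiset.card C ≤ R + C.sum →
    3 * a + b + 2 * Multiset.card C ≤ N → WN R C a b N := by
  intro n
  induction n using Nat.strong_induction_on with
  | _ n ih =>
  intro R C a b N hn hR hC h1 h2
  by_cases h00 : a = 0 ∧ b = 0
  · obtain ⟨rfl, rfl⟩ := h00
    exact WN_zero C R N hC hR (fun h => by
      subst h
      rw [Multiset.sum_zero, Multiset.card_zero] at h1
      omega)
  rcases Multiset.empty_or_exists_mem C with rfl | ⟨c, hc⟩
  · rw [Multiset.sum_zero] at h1 hn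
    rw [Multiset.card_zero] at h1 h2
    rcases Nat.eq_zero_or_pos a with ha | ha
    · exact (ih (n - 1) (by omega) (R - 2) 0 a (b - 1) (N - 1) (by rw [Multiset.sum_zero]; omega)
        (by omega) hC (by rw [Multiset.sum_zero, Multiset.card_zero]; omega)
        (by rw [Multiset.card_zero]; omega)).Q.to (by omega) rfl rfl (by omega) (by omega)
    · exact (ih (n - 1) (by omega) (R - 3) 0 (a - 1) b (N - 3) (by rw [Multiset.sum_zero]; omega)
        (by omega) hC (by rw [Multiset.sum_zero, Multiset.card_zero]; omega)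
        (by rw [Multiset.card_zero]; omega)).T.to (by omega) rfl (by omega) rfl (by omega)
  -- a triangle at the hub
  rcases Nat.lt_or_ge (min a 1 * R) 4 with ha | ha
  swap
  · have ha1 : 1 ≤ a := by
      by_contra hlt
      have : a = 0 := by omega
      subst this
      simp at ha
    have hR4 : 4 ≤ R := by
      rw [min_eq_right ha1] at ha; omega
    exact (ih (n - 1) (by omega) (R - 3) C (a - 1) b (N - 3) (by omega)
        (by omega) hC (by omega) (by omega)).T.to (by omega) rfl (by omega) rfl (by omega)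
  have ha' : a = 0 ∨ R < 4 := by
    rcases Nat.eq_zero_or_pos a with h | h
    · exact Or.inl h
    · right
      rw [min_eq_right h] at ha; omega
  -- a quadrangle at the hub
  by_cases hb : 1 ≤ b ∧ 3 ≤ R
  · exact (ih (n - 1) (by omega) (R - 2) C a (b - 1) (N - 1) (by omega)
        (by omega) hC (by omega) (by omega)).Q.to (by omega) rfl rfl (by omega) (by omega)
  -- a face which is at least four, if there is one
  by_cases h4 : ∃ c ∈ C, 4 ≤ c
  · clear hc
    obtain ⟨c, hc, hc4⟩ := h4
    obtain ⟨C', rfl⟩ := Multiset.exists_cons_of_mem hc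
    have hC' : ∀ c' ∈ C', 3 ≤ c' := fun c' h => hC c' (Multiset.mem_cons_of_mem h)
    rw [Multiset.sum_cons] at h1 hn
    rw [Multiset.card_cons] at h1 h2
    rcases (by omega : R = 1 ∨ (R = 2 ∧ 1 ≤ b) ∨ (R = 2 ∧ b = 0) ∨ (R = 3 ∧ b = 0)) with
      h5 | ⟨h5, h6⟩ | ⟨h5, h6⟩ | ⟨h5, h6⟩
    · subst h5
      exact (ih (n - 1) (by omega) (c - 1) C' a b N (by omega) (by omega) hC' (by omega)
        (by omega)).s0.to rfl (by congr 1; omega) rfl rfl le_rfl
    · subst h5
      exact (ih (n - 1) (by omega) (c - 2) C' a (b - 1) N (by omega) (by omega) hC' (by omega)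
        (by omega)).s1.to rfl (by congr 1; omega) rfl (by omega) le_rfl
    · subst h5
      exact (ih (n - 1) (by omega) (c - 3) C' (a - 1) b (N - 2) (by omega) (by omega) hC'
        (by omega) (by omega)).s3.to rfl (by congr 1; omega) (by omega) rfl (by omega)
    · subst h5
      exact (ih (n - 1) (by omega) (c - 2) C' (a - 1) b (N - 2) (by omega) (by omega) hC'
        (by omega) (by omega)).s2.to rfl (by congr 1; omega) (by omega) rfl (by omega)
  -- heptagons only
  have h7 : ∀ c ∈ C, c = 3 := by
    intro c hc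
    have := hC c hc
    by_contra hne
    exact h4 ⟨c, hc, by omega⟩
  obtain ⟨C', rfl⟩ := Multiset.exists_cons_of_mem hc
  obtain rfl := h7 c hc
  have hC' : ∀ c' ∈ C', 3 ≤ c' := fun c' h => hC c' (Multiset.mem_cons_of_mem h)
  rw [Multiset.sum_cons] at h1 hn
  rw [Multiset.card_cons] at h1 h2
  rcases (by omega : R = 1 ∨ (R = 2 ∧ 1 ≤ b) ∨ (R = 2 ∧ b = 0) ∨ (R = 3 ∧ b = 0)) with
    h5 | ⟨h5, h6⟩ | ⟨h5, h6⟩ | ⟨h5, h6⟩
  · subst h5
    exact (ih (n - 1) (by omega) 2 C' a b N (by omega) (by omega) hC' (by omega)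
      (by omega)).s0.to rfl rfl rfl rfl le_rfl
  · subst h5
    exact (ih (n - 1) (by omega) 1 C' a (b - 1) N (by omega) (by omega) hC' (by omega)
      (by omega)).s1.to rfl rfl rfl (by omega) le_rfl
  · subst h5
    rcases Multiset.empty_or_exists_mem C' with rfl | ⟨c', hc'⟩
    · rw [Multiset.sum_zero, Multiset.card_zero] at h1
      omega
    · obtain ⟨C'', rfl⟩ := Multiset.exists_cons_of_mem hc'
      obtain rfl := h7 c' (Multiset.mem_cons_of_mem hc')
      rw [Multiset.sum_cons] at h1 hn
      rw [Multiset.card_cons] at h1 h2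
      exact (ih (n - 1) (by omega) 1 C'' (a - 1) b (N - 1) (by omega) (by omega)
        (fun c' h => hC' c' (Multiset.mem_cons_of_mem h)) (by omega)
        (by omega)).tri.to rfl rfl (by omega) rfl (by omega)
  · subst h5
    exact (ih (n - 1) (by omega) 1 C' (a - 1) b (N - 2) (by omega) (by omega) hC'
      (by omega) (by omega)).s2.to rfl rfl (by omega) rfl (by omega)

end Pool.Agent.Helper79.HF
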