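import Pool.Agent.Helper79.HC.Junc

/-!
# Few pentagons: unit moves

The predicates say that a configuration can be completed; the numbers of triangles, quadrangles
and hexagons which are used are prescribed, the number of pentagons is arbitrary.
-/

namespace Pool.Agent.Helper79.HF

open Finset Pool.Agent.Helper79.HX

/-- An end piece: it closes the front `(z, 3, 4)`, two triangles being added to the hub. -/
class EndM where
  E : Multiset ℕ
  fin : ∀ (z : ℕ) (M : Multiset ℕ), Conf z 3 4 M → Fin' (M + {z + 2} + E)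

variable [EndM]

/-- the faces which are used -/
def sml (a b p n : ℕ) : Multiset ℕ :=
  Multiset.replicate a 3 + Multiset.replicate b 4 + Multiset.replicate p 5 +
    Multiset.replicate n 6 + EndM.E

/-- front `(z, 3, 4)` -/
def wn (H : ℕ) (C : Multiset ℕ) (a b n : ℕ) : Prop :=
  ∀ (z : ℕ) (M : Multiset ℕ), Conf z 3 4 M → ∃ p, Fin' (M + {z + H} +
    C.map (fun c => c + 4) + sml a b p n)

/-- front `(z, m, x)` -/
def w (m r s : ℕ) (C : Multiset ℕ) (a b n : ℕ) : Prop :=
  ∀ (z x : ℕ) (M : Multiset ℕ), Conf z m x M → ∃ p, Fin' (M + {z + r} + {x + s} +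
    C.map (fun c => c + 4) + sml a b p n)

/-- front `(z, m, y, x)` with two triangles -/
def v (m r t s : ℕ) (C : Multiset ℕ) (a b n : ℕ) : Prop :=
  ∀ (z y x : ℕ) (M : Multiset ℕ), Conf2 z m y x M → ∃ p, Fin' (M + {z + r} + {y + t} + {x + s} +
    C.map (fun c => c + 4) + sml a b p n)

section
variable {m H r s t a b n : ℕ} {C : Multiset ℕ}

theorem w_symm (h : w m r s C a b n) : w m s r C a b n := by
  intro z x M hz
  obtain ⟨p, hp⟩ := h x z M hz.swap.rot.swap
  exact ⟨p, hp.congr (by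
    intro k
    simp only [sml, Multiset.count_add, Multiset.count_cons, Multiset.count_singleton,
      Multiset.map_cons, Multiset.map_zero, Multiset.count_zero, Multiset.replicate_succ,
      Multiset.replicate_zero, Nat.reduceAdd, Nat.add_zero]
    omega)⟩

theorem w_quad (h : w 3 r s C a b n) : w 3 (r + 1) (s + 1) C a (b + 1) n := by
  intro z x M hz
  obtain ⟨p, hp⟩ := h _ _ _ hz.move1
  have e1 : z + 1 + r = z + (r + 1) := by ring
  have e2 : x + 1 + s = x + (s + 1) := by ring
  rw [e1, e2] at hp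
  exact ⟨p, hp.congr (by
    intro k
    simp only [sml, Multiset.count_add, Multiset.count_cons, Multiset.count_singleton,
      Multiset.map_cons, Multiset.map_zero, Multiset.count_zero, Multiset.replicate_succ,
      Multiset.replicate_zero, Nat.reduceAdd, Nat.add_zero]
    omega)⟩

theorem w_switch (h : w 4 r s C a b n) : w 3 (r + 2) (s + 1) C (a + 1) b n := by
  intro z x M hz
  obtain ⟨p, hp⟩ := h _ _ _ hz.move2
  have e1 : z + 2 + r = z + (r + 2) := by ring
  have e2 : x + 1 + s = x + (s + 1) := by ring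
  rw [e1, e2] at hp
  exact ⟨p + 1, hp.congr (by
    intro k
    simp only [sml, Multiset.count_add, Multiset.count_cons, Multiset.count_singleton,
      Multiset.map_cons, Multiset.map_zero, Multiset.count_zero, Multiset.replicate_succ,
      Multiset.replicate_zero, Nat.reduceAdd, Nat.add_zero]
    omega)⟩

theorem w_string (h : w 4 r s C a b n) : w 4 (r + 2) (s + 1) C (a + 1) b (n + 1) := by
  intro z x M hz
  obtain ⟨p, hp⟩ := h _ _ _ hz.move2
  have e1 : z + 2 + r = z + (r + 2) := by ring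
  have e2 : x + 1 + s = x + (s + 1) := by ring
  rw [e1, e2] at hp
  exact ⟨p, hp.congr (by
    intro k
    simp only [sml, Multiset.count_add, Multiset.count_cons, Multiset.count_singleton,
      Multiset.map_cons, Multiset.map_zero, Multiset.count_zero, Multiset.replicate_succ,
      Multiset.replicate_zero, Nat.reduceAdd, Nat.add_zero]
    omega)⟩

theorem w_end (h : wn H C a b n) : w 3 (H + 1) 1 C a b n := by
  intro z x M hz
  obtain ⟨p, hp⟩ := h _ _ hz.swap.move1
  have e1 : z + 1 + H = z + (H + 1) := by ring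
  rw [e1] at hp
  exact ⟨p, hp.congr (by
    intro k
    simp only [sml, Multiset.count_add, Multiset.count_cons, Multiset.count_singleton,
      Multiset.map_cons, Multiset.map_zero, Multiset.count_zero, Multiset.replicate_succ,
      Multiset.replicate_zero, Nat.reduceAdd, Nat.add_zero]
    omega)⟩

theorem w_end4 (h : wn H C a b n) : w 4 (H + 2) 1 C a b (n + 1) := by
  intro z x M hz
  have h1 : Conf (z + 1) 3 5 ((x + 1) ::ₘ M) := hz.swap.move1
  obtain ⟨p, hp⟩ := h _ _ h1.swap.move1
  have e1 : z + 1 + 1 + H = z + (H + 2) := by ring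
  rw [e1] at hp
  exact ⟨p, hp.congr (by
    intro k
    simp only [sml, Multiset.count_add, Multiset.count_cons, Multiset.count_singleton,
      Multiset.map_cons, Multiset.map_zero, Multiset.count_zero, Multiset.replicate_succ,
      Multiset.replicate_zero, Nat.reduceAdd, Nat.add_zero]
    omega)⟩

theorem fresh3 {c : ℕ} (h : w 3 H c C a b n) : wn H (c ::ₘ C) a b n := by
  intro z M hz
  obtain ⟨p, hp⟩ := h _ _ _ hz
  have e1 : 4 + c = c + 4 := by ring
  rw [e1] at hp
  exact ⟨p, hp.congr (by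
    intro k
    simp only [sml, Multiset.count_add, Multiset.count_cons, Multiset.count_singleton,
      Multiset.map_cons, Multiset.map_zero, Multiset.count_zero, Multiset.replicate_succ,
      Multiset.replicate_zero, Nat.reduceAdd, Nat.add_zero]
    omega)⟩

theorem fresh4 {c : ℕ} (h : w 4 H (c + 1) C a b n) : wn H (c ::ₘ C) a b n := by
  intro z M hz
  obtain ⟨p, hp⟩ := h _ _ _ hz.swap
  have e1 : 3 + (c + 1) = c + 4 := by ring
  rw [e1] at hp
  exact ⟨p, hp.congr (by
    intro k
    simp only [sml, Multiset.count_add, Multiset.count_cons, Multiset.count_singleton,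
      Multiset.map_cons, Multiset.map_zero, Multiset.count_zero, Multiset.replicate_succ,
      Multiset.replicate_zero, Nat.reduceAdd, Nat.add_zero]
    omega)⟩

theorem wn_nil : wn 2 0 0 0 0 := by
  intro z M hz
  exact ⟨0, (EndM.fin z M hz).congr (by
    intro k
    simp only [sml, Multiset.count_add, Multiset.count_cons, Multiset.count_singleton,
      Multiset.map_cons, Multiset.map_zero, Multiset.count_zero, Multiset.replicate_succ,
      Multiset.replicate_zero, Nat.reduceAdd, Nat.add_zero]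
    omega)⟩

theorem wn_P (h : wn H C a b n) : wn (H + 1) C a b n := by
  intro z M hz
  obtain ⟨p, hp⟩ := h _ _ hz.swap.move1
  have e1 : z + 1 + H = z + (H + 1) := by ring
  rw [e1] at hp
  exact ⟨p + 1, hp.congr (by
    intro k
    simp only [sml, Multiset.count_add, Multiset.count_cons, Multiset.count_singleton,
      Multiset.map_cons, Multiset.map_zero, Multiset.count_zero, Multiset.replicate_succ,
      Multiset.replicate_zero, Nat.reduceAdd, Nat.add_zero]
    omega)⟩

theorem wn_Q (h : wn H C a b n) : wn (H + 2) C a (b + 1) (n + 1) := by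
  intro z M hz
  obtain ⟨p, hp⟩ := h _ _ hz.move1.swap.move1
  have e1 : z + 1 + 1 + H = z + (H + 2) := by ring
  rw [e1] at hp
  exact ⟨p, hp.congr (by
    intro k
    simp only [sml, Multiset.count_add, Multiset.count_cons, Multiset.count_singleton,
      Multiset.map_cons, Multiset.map_zero, Multiset.count_zero, Multiset.replicate_succ,
      Multiset.replicate_zero, Nat.reduceAdd, Nat.add_zero]
    omega)⟩

/-- one triangle and three hexagons -/
theorem wn_T (h : wn H C a b n) : wn (H + 3) C (a + 1) b (n + 3) := by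
  intro z M hz
  have h1 : Conf (z + 1) 4 5 (6 ::ₘ 3 ::ₘ M) := hz.rot.swap.move2.swap.rot.swap
  obtain ⟨p, hp⟩ := h _ _ h1.swap.move1.swap.move1
  have e1 : z + 1 + 1 + 1 + H = z + (H + 3) := by ring
  rw [e1] at hp
  exact ⟨p, hp.congr (by
    intro k
    simp only [sml, Multiset.count_add, Multiset.count_cons, Multiset.count_singleton,
      Multiset.map_cons, Multiset.map_zero, Multiset.count_zero, Multiset.replicate_succ,
      Multiset.replicate_zero, Nat.reduceAdd, Nat.add_zero]
    omega)⟩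

theorem wn_TT (h : wn H C a b n) : wn (H + 6) C (a + 2) b (n + 4) := by
  intro z M hz
  obtain ⟨p, hp⟩ := h _ _ hz.swap.move2.move2.swap.move1.swap.move1
  have e1 : z + 2 + 2 + 1 + 1 + H = z + (H + 6) := by ring
  rw [e1] at hp
  exact ⟨p, hp.congr (by
    intro k
    simp only [sml, Multiset.count_add, Multiset.count_cons, Multiset.count_singleton,
      Multiset.map_cons, Multiset.map_zero, Multiset.count_zero, Multiset.replicate_succ,
      Multiset.replicate_zero, Nat.reduceAdd, Nat.add_zero]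
    omega)⟩

/-- a triangle whose curvature is distributed to three consecutive faces, the second one being
a heptagon -/
theorem wn_tri (h : wn H C a b n) : wn 2 (3 ::ₘ (H + 2) ::ₘ C) (a + 1) b (n + 1) := by
  intro z M hz
  have h1 : Conf 6 4 4 ((z + 2) ::ₘ 3 ::ₘ M) := hz.rot.swap.rot.swap.move2
  have h2 : Conf 5 3 5 (7 ::ₘ (z + 2) ::ₘ 3 ::ₘ M) := h1.rot.move1
  obtain ⟨p, hp⟩ := h _ _ h2.swap.move1
  have e1 : 5 + 1 + H = H + 2 + 4 := by ring
  rw [e1] at hp
  exact ⟨p, hp.congr (by
    intro k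
    simp only [sml, Multiset.count_add, Multiset.count_cons, Multiset.count_singleton,
      Multiset.map_cons, Multiset.map_zero, Multiset.count_zero, Multiset.replicate_succ,
      Multiset.replicate_zero, Nat.reduceAdd, Nat.add_zero]
    omega)⟩

/-- the junction -/
theorem w_open {c : ℕ} (h : v 3 r c s C a b n) : w 3 (r + 2) (s + 1) (c ::ₘ C) a b n := by
  intro z x M hz
  have h1 : Conf2 (z + 2) 3 4 (x + 1) (5 ::ₘ M) := hz.split.move
  obtain ⟨p, hp⟩ := h _ _ _ _ h1
  have e1 : z + 2 + r = z + (r + 2) := by ring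
  have e2 : x + 1 + s = x + (s + 1) := by ring
  have e3 : 4 + c = c + 4 := by ring
  rw [e1, e2, e3] at hp
  exact ⟨p + 1, hp.congr (by
    intro k
    simp only [sml, Multiset.count_add, Multiset.count_cons, Multiset.count_singleton,
      Multiset.map_cons, Multiset.map_zero, Multiset.count_zero, Multiset.replicate_succ,
      Multiset.replicate_zero, Nat.reduceAdd, Nat.add_zero]
    omega)⟩

theorem v_quad (h : v 3 r t s C a b n) : v 3 (r + 1) (t + 1) s C a (b + 1) n := by
  intro z y x M hz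
  obtain ⟨p, hp⟩ := h _ _ _ _ hz.move
  have e1 : z + 1 + r = z + (r + 1) := by ring
  have e2 : y + 1 + t = y + (t + 1) := by ring
  rw [e1, e2] at hp
  exact ⟨p, hp.congr (by
    intro k
    simp only [sml, Multiset.count_add, Multiset.count_cons, Multiset.count_singleton,
      Multiset.map_cons, Multiset.map_zero, Multiset.count_zero, Multiset.replicate_succ,
      Multiset.replicate_zero, Nat.reduceAdd, Nat.add_zero]
    omega)⟩

theorem v_switch (h : v 4 r t s C a b n) : v 3 (r + 2) (t + 1) s C (a + 1) b n := by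
  intro z y x M hz
  obtain ⟨p, hp⟩ := h _ _ _ _ hz.move2
  have e1 : z + 2 + r = z + (r + 2) := by ring
  have e2 : y + 1 + t = y + (t + 1) := by ring
  rw [e1, e2] at hp
  exact ⟨p + 1, hp.congr (by
    intro k
    simp only [sml, Multiset.count_add, Multiset.count_cons, Multiset.count_singleton,
      Multiset.map_cons, Multiset.map_zero, Multiset.count_zero, Multiset.replicate_succ,
      Multiset.replicate_zero, Nat.reduceAdd, Nat.add_zero]
    omega)⟩

theorem v_string (h : v 4 r t s C a b n) : v 4 (r + 2) (t + 1) s C (a + 1) b (n + 1) := by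
  intro z y x M hz
  obtain ⟨p, hp⟩ := h _ _ _ _ hz.move2
  have e1 : z + 2 + r = z + (r + 2) := by ring
  have e2 : y + 1 + t = y + (t + 1) := by ring
  rw [e1, e2] at hp
  exact ⟨p, hp.congr (by
    intro k
    simp only [sml, Multiset.count_add, Multiset.count_cons, Multiset.count_singleton,
      Multiset.map_cons, Multiset.map_zero, Multiset.count_zero, Multiset.replicate_succ,
      Multiset.replicate_zero, Nat.reduceAdd, Nat.add_zero]
    omega)⟩

/-- complete the first vertex; the third one is the new hub -/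
theorem v_end3 (h : w 3 t s C a b n) : v 3 1 (t + 1) (s + 1) C (a + 1) b n := by
  intro z y x M hz
  have h1 : Conf (y + 1) 3 (x + 1) ((z + 1) ::ₘ 3 ::ₘ M) := hz.forget.rot.move1
  obtain ⟨p, hp⟩ := h _ _ _ h1
  have e1 : y + 1 + t = y + (t + 1) := by ring
  have e2 : x + 1 + s = x + (s + 1) := by ring
  rw [e1, e2] at hp
  exact ⟨p, hp.congr (by
    intro k
    simp only [sml, Multiset.count_add, Multiset.count_cons, Multiset.count_singleton,
      Multiset.map_cons, Multiset.map_zero, Multiset.count_zero, Multiset.replicate_succ,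
      Multiset.replicate_zero, Nat.reduceAdd, Nat.add_zero]
    omega)⟩

theorem v_end4 (h : w 3 t s C a b n) : v 4 1 (t + 1) (s + 1) C a (b + 1) n := by
  intro z y x M hz
  have h1 : Conf (y + 1) 3 (x + 1) ((z + 1) ::ₘ 4 ::ₘ M) := hz.forget.rot.move1
  obtain ⟨p, hp⟩ := h _ _ _ h1
  have e1 : y + 1 + t = y + (t + 1) := by ring
  have e2 : x + 1 + s = x + (s + 1) := by ring
  rw [e1, e2] at hp
  exact ⟨p, hp.congr (by
    intro k
    simp only [sml, Multiset.count_add, Multiset.count_cons, Multiset.count_singleton,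
      Multiset.map_cons, Multiset.map_zero, Multiset.count_zero, Multiset.replicate_succ,
      Multiset.replicate_zero, Nat.reduceAdd, Nat.add_zero]
    omega)⟩

theorem v_cap (h : w 3 t s C a b n) : v 3 3 (t + 3) (s + 1) C a (b + 3) n := by
  intro z y x M hz
  have h1 : Conf (y + 2 + 1) 3 (x + 1) ((z + 2 + 1) ::ₘ 5 ::ₘ 4 ::ₘ 4 ::ₘ 4 ::ₘ M) :=
    hz.cap.rot.move1
  obtain ⟨p, hp⟩ := h _ _ _ h1
  have e1 : y + 2 + 1 + t = y + (t + 3) := by ring
  have e2 : x + 1 + s = x + (s + 1) := by ring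
  have e3 : z + 2 + 1 = z + 3 := by ring
  rw [e1, e2, e3] at hp
  exact ⟨p + 1, hp.congr (by
    intro k
    simp only [sml, Multiset.count_add, Multiset.count_cons, Multiset.count_singleton,
      Multiset.map_cons, Multiset.map_zero, Multiset.count_zero, Multiset.replicate_succ,
      Multiset.replicate_zero, Nat.reduceAdd, Nat.add_zero]
    omega)⟩

end

/-! ### At most `N` hexagons -/

def WN (H : ℕ) (C : Multiset ℕ) (a b N : ℕ) : Prop := ∃ n ≤ N, wn H C a b n

def W (m r s : ℕ) (C : Multiset ℕ) (a b N : ℕ) : Prop := ∃ n ≤ N, w m r s C a b n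

def V (m r t s : ℕ) (C : Multiset ℕ) (a b N : ℕ) : Prop := ∃ n ≤ N, v m r t s C a b n

section
variable {m H r s t a b N : ℕ} {C : Multiset ℕ}

theorem W.symm (h : W m r s C a b N) : W m s r C a b N :=
  let ⟨n, hn, h⟩ := h; ⟨n, hn, w_symm h⟩

theorem W.quad (h : W 3 r s C a b N) : W 3 (r + 1) (s + 1) C a (b + 1) N :=
  let ⟨n, hn, h⟩ := h; ⟨n, hn, w_quad h⟩

theorem W.switch (h : W 4 r s C a b N) : W 3 (r + 2) (s + 1) C (a + 1) b N :=
  let ⟨n, hn, h⟩ := h; ⟨n, hn, w_switch h⟩

theorem W.string (h : W 4 r s C a b N) : W 4 (r + 2) (s + 1) C (a + 1) b (N + 1) :=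
  let ⟨n, hn, h⟩ := h; ⟨n + 1, by omega, w_string h⟩

theorem WN.fin3 (h : WN H C a b N) : W 3 (H + 1) 1 C a b N :=
  let ⟨n, hn, h⟩ := h; ⟨n, hn, w_end h⟩

theorem WN.fin4 (h : WN H C a b N) : W 4 (H + 2) 1 C a b (N + 1) :=
  let ⟨n, hn, h⟩ := h; ⟨n + 1, by omega, w_end4 h⟩

theorem W.fresh3 {c : ℕ} (h : W 3 H c C a b N) : WN H (c ::ₘ C) a b N :=
  let ⟨n, hn, h⟩ := h; ⟨n, hn, HF.fresh3 h⟩

theorem W.fresh4 {c : ℕ} (h : W 4 H (c + 1) C a b N) : WN H (c ::ₘ C) a b N :=
  let ⟨n, hn, h⟩ := h; ⟨n, hn, HF.fresh4 h⟩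

theorem WN_nil : WN 2 0 0 0 N := ⟨0, by omega, wn_nil⟩

theorem WN.P (h : WN H C a b N) : WN (H + 1) C a b N :=
  let ⟨n, hn, h⟩ := h; ⟨n, hn, wn_P h⟩

theorem WN.Q (h : WN H C a b N) : WN (H + 2) C a (b + 1) (N + 1) :=
  let ⟨n, hn, h⟩ := h; ⟨n + 1, by omega, wn_Q h⟩

theorem WN.T (h : WN H C a b N) : WN (H + 3) C (a + 1) b (N + 3) :=
  let ⟨n, hn, h⟩ := h; ⟨n + 3, by omega, wn_T h⟩

theorem WN.TT (h : WN H C a b N) : WN (H + 6) C (a + 2) b (N + 4) :=
  let ⟨n, hn, h⟩ := h; ⟨n + 4, by omega, wn_TT h⟩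

theorem WN.tri (h : WN H C a b N) : WN 2 (3 ::ₘ (H + 2) ::ₘ C) (a + 1) b (N + 1) :=
  let ⟨n, hn, h⟩ := h; ⟨n + 1, by omega, wn_tri h⟩

theorem V.open {c : ℕ} (h : V 3 r c s C a b N) : W 3 (r + 2) (s + 1) (c ::ₘ C) a b N :=
  let ⟨n, hn, h⟩ := h; ⟨n, hn, w_open h⟩

theorem V.quad (h : V 3 r t s C a b N) : V 3 (r + 1) (t + 1) s C a (b + 1) N :=
  let ⟨n, hn, h⟩ := h; ⟨n, hn, v_quad h⟩

theorem V.switch (h : V 4 r t s C a b N) : V 3 (r + 2) (t + 1) s C (a + 1) b N :=
  let ⟨n, hn, h⟩ := h; ⟨n, hn, v_switch h⟩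

theorem V.string (h : V 4 r t s C a b N) : V 4 (r + 2) (t + 1) s C (a + 1) b (N + 1) :=
  let ⟨n, hn, h⟩ := h; ⟨n + 1, by omega, v_string h⟩

theorem W.vend3 (h : W 3 t s C a b N) : V 3 1 (t + 1) (s + 1) C (a + 1) b N :=
  let ⟨n, hn, h⟩ := h; ⟨n, hn, v_end3 h⟩

theorem W.vend4 (h : W 3 t s C a b N) : V 4 1 (t + 1) (s + 1) C a (b + 1) N :=
  let ⟨n, hn, h⟩ := h; ⟨n, hn, v_end4 h⟩

theorem W.vcap (h : W 3 t s C a b N) : V 3 3 (t + 3) (s + 1) C a (b + 3) N :=
  let ⟨n, hn, h⟩ := h; ⟨n, hn, v_cap h⟩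

/-! changing the parameters -/

theorem WN.to {H' a' b' N' : ℕ} {C' : Multiset ℕ} (h : WN H C a b N) (e1 : H = H') (e2 : C = C')
    (e3 : a = a') (e4 : b = b') (e5 : N ≤ N') : WN H' C' a' b' N' := by
  subst e1 e2 e3 e4
  obtain ⟨n, hn, h⟩ := h
  exact ⟨n, hn.trans e5, h⟩

theorem W.to {m' r' s' a' b' N' : ℕ} {C' : Multiset ℕ} (h : W m r s C a b N) (e0 : m = m')
    (e1 : r = r') (e2 : s = s') (e6 : C = C') (e3 : a = a') (e4 : b = b') (e5 : N ≤ N') :
    W m' r' s' C' a' b' N' := by
  subst e0 e1 e2 e3 e4 e6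
  obtain ⟨n, hn, h⟩ := h
  exact ⟨n, hn.trans e5, h⟩

theorem V.to {m' r' t' s' a' b' N' : ℕ} {C' : Multiset ℕ} (h : V m r t s C a b N) (e0 : m = m')
    (e1 : r = r') (e7 : t = t') (e2 : s = s') (e6 : C = C') (e3 : a = a') (e4 : b = b')
    (e5 : N ≤ N') : V m' r' t' s' C' a' b' N' := by
  subst e0 e1 e2 e3 e4 e6 e7
  obtain ⟨n, hn, h⟩ := h
  exact ⟨n, hn.trans e5, h⟩

end

end Pool.Agent.Helper79.HF
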